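import Mathlib
import Pool.Agent.Run7.h533.AC.Mom3
import Pool.Agent.Run7.h533.AC.Cube

set_option autoImplicit false

/-!
# MP_eba1ef_gt: convex bodies with `R² < 3 r²` (circumradius and typical radius)

No symmetry of `K` is assumed.

**Criterion.** Let `K` be a convex body in `ℝ^d`, `L` a linear map from `ℝ^d` to some `ℝ^m` and `c`
a point of `ℝ^m`. Assume that `|Lx - c| ≤ R` for all points `x` of `K`, that `|Lx - c| ≤ r` only
for a share `≤ τ` of the volume of `K`, that no halfspace `⟨Lx - c, u⟩ ≥ s`, `|u| = 1`, contains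
more than the share `τ` of the volume of `K`, and that `(1+δ) R² + 2 s² ≤ 3 r²`. Then
`c(K) ≤ 11000 L₀² δ⁻¹ d log(d+1) 2^d max(τ, e^(-d))^(1/L₀)`, with `L₀ = log₂ (168/δ)`.
So `c(K) < 2^d` for `d ≥ d₀(δ)` if `τ ≤ d^(-N)`, `N = N(δ)`, and `c(K) ≤ q^d` with `q < 2` if `τ` is
exponentially small. By the concentration of measure `τ` is small if `r` is a little less than the
mean value of `|Lx - c|`, if the mean of `Lx - c` is near `0` and if `L K` is not close to a low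
dimensional set; so the main condition is that the square of the circumradius is less than three
times the square of the typical radius, for one ellipsoid in some projection of `K`. Nothing is
asked for in the other directions.

**The constant `3` is the right one**: for the cube `[-1,1]^d`, which needs `2^d` translates, one
has `R² = d` and `r² = (1/3 - η) d`, with `τ` exponentially small.

**Cubes with cut off vertices.** Let `0 < δ ≤ 1/2`. There are `q < 2` and `d₀` such that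
`c(K) ≤ q^d` for every convex body `K` in the cube `[-1,1]^d`, `d ≥ d₀`, with `|x|² ≤ (1-δ) d` for
all points `x` of `K` and with `|K| ≥ e^(-δ² d/240) 2^d`. (For the whole cube `|x|² = d` at the
vertices only.) These bodies need not be symmetric, and all but an exponentially small part of
their boundary points can be points of the facets of the cube.

All bounds hold for `K + B` as well, for every nonempty compact convex set `B`.

**Proof.** Let `A` be a finite set of points of `K` such that no translate of `l K`, `l` close to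
`1`, contains more than the share `q` of `A`. Then the sum `w = x_1/2 + x_2/4 + ... + x_k/2^k +
z/2^k` of random points `x_i` of `A` (and a random point `z` of `l K`) has a density bounded by
`(C 2^d q)^k` up to the probability `k/C` (as in `CapsOfSmallVolume`), so that it is hardly ever in
a given set of small volume. Let `u` be the mean of `L x - c` for a random point `x` of `A`. Then
`|L w - c| ≥ r` and `⟨L w - c, u⟩ ≤ s |u|` almost always. By the second condition `|u|` is not much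
larger than `s`. The variance of `x_1/2 + x_2/4 + ...` is a third of the variance of `x_1`; so
`r² ≤ E|L w - c|² ≤ (1/3)(R² - |u|²) + |u|²` up to a small error, a contradiction.
-/

namespace Pool.Agent.Results.MP_eba1ef_gt.CircumradiusAndMoments

open MeasureTheory
open scoped Pointwise ENNReal
open Pool.Agent.Run7.h533.AC (momentBound)

/-- A convex body in `ℝ^d`. -/
def Body {d : ℕ} (K : Set (EuclideanSpace ℝ (Fin d))) : Prop :=
  Convex ℝ K ∧ IsCompact K ∧ (interior K).Nonempty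

/-- For every nonempty compact convex set `B` (for example for a point) the sum `K + B` is a convex
body which is covered by at most `N` translates of its interior. -/
def SumsCovered {d : ℕ} (N : ℝ) (K : Set (EuclideanSpace ℝ (Fin d))) : Prop :=
  ∀ B : Set (EuclideanSpace ℝ (Fin d)), Convex ℝ B → IsCompact B → B.Nonempty →
    Body (K + B) ∧ ∃ T : Finset (EuclideanSpace ℝ (Fin d)), (T.card : ℝ) ≤ N ∧
      K + B ⊆ ⋃ t ∈ T, (fun x => t + x) '' interior (K + B)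

/-- At most the share `τ` of the volume of `K` is in `S`. -/
def SmallShare {d : ℕ} (τ : ℝ) (S K : Set (EuclideanSpace ℝ (Fin d))) : Prop :=
  volume (S ∩ K) ≤ ENNReal.ofReal τ * volume K

/-- `|Lx - c| ≤ R` on `K`; `|Lx - c| ≤ r` only for the share `τ` of `K`; each halfspace
`⟨Lx - c, u⟩ ≥ s` contains at most the share `τ` of `K`; and `(1+δ) R² + 2 s² ≤ 3 r²`. -/
def Spread {d m : ℕ} (L : EuclideanSpace ℝ (Fin d) →L[ℝ] EuclideanSpace ℝ (Fin m))
    (c : EuclideanSpace ℝ (Fin m)) (R r s τ δ : ℝ) (K : Set (EuclideanSpace ℝ (Fin d))) : Prop :=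
  0 < R ∧ 0 ≤ r ∧ 0 ≤ s ∧ s ≤ R ∧ (∀ x ∈ K, ‖L x - c‖ ≤ R) ∧
    SmallShare τ {x | ‖L x - c‖ ≤ r} K ∧
    (∀ u : EuclideanSpace ℝ (Fin m), ‖u‖ = 1 → SmallShare τ {x | s ≤ inner ℝ (L x - c) u} K) ∧
    (1 + δ) * R ^ 2 + 2 * s ^ 2 ≤ 3 * r ^ 2

theorem body_add {d : ℕ} {K B : Set (EuclideanSpace ℝ (Fin d))} (hK : Body K) (hB : Convex ℝ B)
    (hBc : IsCompact B) (hBn : B.Nonempty) : Body (K + B) := by
  refine ⟨hK.1.add hB, hK.2.1.add hBc, ?_⟩
  obtain ⟨a, ha⟩ := hK.2.2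
  obtain ⟨b, hb⟩ := hBn
  have hopen : IsOpen (interior K + B) := isOpen_interior.add_right
  exact ⟨a + b, interior_maximal (Set.add_subset_add_right interior_subset) hopen
    (Set.add_mem_add ha hb)⟩

theorem sums {d : ℕ} {K : Set (EuclideanSpace ℝ (Fin d))} {N : ℝ} (hK : Body K)
    (h : ∀ B : Set (EuclideanSpace ℝ (Fin d)), ∃ T : Finset (EuclideanSpace ℝ (Fin d)),
      K + B ⊆ ⋃ t ∈ T, (fun x => t + x) '' interior (K + B) ∧ (T.card : ℝ) ≤ N) :
    SumsCovered N K := by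
  intro B hB hBc hBn
  obtain ⟨T, hT, hTc⟩ := h B
  exact ⟨body_add hK hB hBc hBn, T, hTc, hT⟩

theorem sums_mono {d : ℕ} {K : Set (EuclideanSpace ℝ (Fin d))} {N M : ℝ}
    (h : SumsCovered N K) (hNM : N ≤ M) : SumsCovered M K := by
  intro B hB hBc hBn
  obtain ⟨h1, T, h2, h3⟩ := h B hB hBc hBn
  exact ⟨h1, T, h2.trans hNM, h3⟩

theorem criterion {d m : ℕ} (hd : 1 ≤ d) {K : Set (EuclideanSpace ℝ (Fin d))} (hK : Body K)
    (L : EuclideanSpace ℝ (Fin d) →L[ℝ] EuclideanSpace ℝ (Fin m))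
    (c : EuclideanSpace ℝ (Fin m)) {R r s τ δ : ℝ} (hτ : τ ≤ 1) (hδ0 : 0 < δ) (hδ1 : δ ≤ 1)
    (h : Spread L c R r s τ δ K) : SumsCovered (momentBound d δ τ) K := by
  obtain ⟨hR, hr0, hs0, hsR, h1, h2, h3, h4⟩ := h
  exact sums hK (Pool.Agent.Run7.h533.AC.moment_all hd hK.1 hK.2.1 hK.2.2 L c hR hr0 hs0 hsR hτ
    hδ0 hδ1 h1 h2 h3 (by linarith))

theorem logb_pos' {δ : ℝ} (hδ0 : 0 < δ) (hδ1 : δ ≤ 1) : 0 < Real.logb 2 (168 / δ) := by
  apply Real.logb_pos (by norm_num)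
  rw [lt_div_iff₀ hδ0]
  linarith

theorem size_q {δ θ : ℝ} (hδ0 : 0 < δ) (hδ1 : δ ≤ 1) (hθ0 : 0 ≤ θ) (hθ1 : θ < 1) :
    ∃ q : ℝ, 0 < q ∧ q < 2 ∧ ∃ N : ℕ, ∀ d : ℕ, N ≤ d → momentBound d δ (θ ^ d) ≤ q ^ d := by
  have hL := logb_pos' hδ0 hδ1
  obtain ⟨q, hq0, hq2, N, hN⟩ := Pool.Agent.Run7.h533.AC.num_exp
    (C := 11000 * Real.logb 2 (168 / δ) ^ 2 / δ) (c := 1 / Real.logb 2 (168 / δ))
    (by positivity) (by positivity) one_pos hθ0 hθ1
  refine ⟨q, hq0, hq2, N, fun d hd => ?_⟩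
  have h := hN d hd
  rw [one_mul] at h
  exact h

theorem size_two {δ : ℝ} (hδ0 : 0 < δ) (hδ1 : δ ≤ 1) :
    ∃ N d₀ : ℕ, ∀ d : ℕ, d₀ ≤ d → momentBound d δ (1 / (d : ℝ) ^ N) < 2 ^ d := by
  have hL := logb_pos' hδ0 hδ1
  obtain ⟨N, d₀, hN⟩ := Pool.Agent.Run7.h533.AC.num_poly
    (C := 11000 * Real.logb 2 (168 / δ) ^ 2 / δ) (c := 1 / Real.logb 2 (168 / δ))
    (by positivity) (by positivity) one_pos
  refine ⟨N, d₀, fun d hd => ?_⟩
  have h := hN d hd
  rw [one_mul] at h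
  exact h

/-- a subset of the cube without points near the vertices, of almost full volume -/
theorem cut_cube {d : ℕ} (hd : 1 ≤ d) {K : Set (EuclideanSpace ℝ (Fin d))} {δ : ℝ} (hδ0 : 0 < δ)
    (hδ1 : δ ≤ 1 / 2) (hK : ∀ x ∈ K, (∀ i, |x i| ≤ 1) ∧ ‖x‖ ^ 2 ≤ (1 - δ) * d)
    (hV : ENNReal.ofReal (2 ^ d * Real.exp (-(δ ^ 2 / 240 * d))) ≤ volume K) :
    Spread (ContinuousLinearMap.id ℝ (EuclideanSpace ℝ (Fin d))) 0 (Real.sqrt ((1 - δ) * d))
      (Real.sqrt ((1 / 3 - δ / 12) * d)) (Real.sqrt (δ / 8 * d))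
      (Real.exp (-(δ ^ 2 / 240)) ^ d) (δ / 2) K := by
  have hd' : (1 : ℝ) ≤ d := by exact_mod_cast hd
  have hd0 : (0 : ℝ) < d := by linarith
  have hR2 : (0 : ℝ) < (1 - δ) * d := mul_pos (by linarith) hd0
  have hr2 : (0 : ℝ) ≤ (1 / 3 - δ / 12) * d := mul_nonneg (by linarith) hd0.le
  have hs2 : (0 : ℝ) ≤ δ / 8 * d := by positivity
  -- volumes
  have hvol : ∀ (S : Set (EuclideanSpace ℝ (Fin d))) (t : ℝ),
      volume (S ∩ K) ≤ ENNReal.ofReal (2 ^ d * Real.exp (-t)) → δ ^ 2 / 120 * d ≤ t →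
      SmallShare (Real.exp (-(δ ^ 2 / 240)) ^ d) S K := by
    intro S t hS ht
    unfold SmallShare
    refine hS.trans ?_
    have e : (2 : ℝ) ^ d * Real.exp (-t) ≤ Real.exp (-(δ ^ 2 / 240)) ^ d *
        (2 ^ d * Real.exp (-(δ ^ 2 / 240 * d))) := by
      have e1 : Real.exp (-(δ ^ 2 / 240)) ^ d = Real.exp (-(δ ^ 2 / 240 * d)) := by
        rw [← Real.exp_nat_mul]
        congr 1
        ring
      rw [e1]
      calc (2 : ℝ) ^ d * Real.exp (-t) ≤ 2 ^ d * Real.exp (-(δ ^ 2 / 120 * d)) := by gcongr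
        _ = 2 ^ d * (Real.exp (-(δ ^ 2 / 240 * d)) * Real.exp (-(δ ^ 2 / 240 * d))) := by
            rw [← Real.exp_add]
            congr 2
            ring
        _ = _ := by ring
    calc ENNReal.ofReal (2 ^ d * Real.exp (-t))
        ≤ ENNReal.ofReal (Real.exp (-(δ ^ 2 / 240)) ^ d *
          (2 ^ d * Real.exp (-(δ ^ 2 / 240 * d)))) := ENNReal.ofReal_le_ofReal e
      _ = ENNReal.ofReal (Real.exp (-(δ ^ 2 / 240)) ^ d) *
          ENNReal.ofReal (2 ^ d * Real.exp (-(δ ^ 2 / 240 * d))) :=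
          ENNReal.ofReal_mul (by positivity)
      _ ≤ _ := by gcongr
  refine ⟨Real.sqrt_pos.2 hR2, Real.sqrt_nonneg _, Real.sqrt_nonneg _, ?_, ?_, ?_, ?_, ?_⟩
  · apply Real.sqrt_le_sqrt
    gcongr
    linarith
  · intro x hx
    rw [ContinuousLinearMap.id_apply, sub_zero]
    exact Real.le_sqrt_of_sq_le (hK x hx).2
  · refine hvol _ (5 / 4 * (δ / 12) ^ 2 * d) (le_trans (measure_mono ?_)
      (Pool.Agent.Run7.h533.AC.cube_norm (d := d) (η := δ / 12) (by positivity))) ?_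
    · rintro x ⟨hx, hxK⟩
      rw [Set.mem_ofPred_eq, ContinuousLinearMap.id_apply, sub_zero] at hx
      refine ⟨(hK x hxK).1, ?_⟩
      calc ‖x‖ ^ 2 ≤ Real.sqrt ((1 / 3 - δ / 12) * d) ^ 2 :=
            pow_le_pow_left₀ (norm_nonneg _) hx 2
        _ = (1 / 3 - δ / 12) * d := Real.sq_sqrt hr2
    · have : 0 ≤ δ ^ 2 * d := by positivity
      nlinarith
  · intro u hu
    refine hvol _ (Real.sqrt (δ / 8 * d) ^ 2 / 2) (le_trans (measure_mono ?_)
      (Pool.Agent.Run7.h533.AC.cube_cap (d := d) u hu (Real.sqrt_nonneg (δ / 8 * d)))) ?_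
    · rintro x ⟨hx, hxK⟩
      rw [Set.mem_ofPred_eq, ContinuousLinearMap.id_apply, sub_zero] at hx
      exact ⟨(hK x hxK).1, hx⟩
    · rw [Real.sq_sqrt hs2]
      have h1 : δ ^ 2 ≤ δ := by nlinarith
      have h2 : δ ^ 2 * d ≤ δ * d := by gcongr
      have h3 : 0 ≤ δ * d := by positivity
      linarith
  · rw [Real.sq_sqrt hR2.le, Real.sq_sqrt hs2, Real.sq_sqrt hr2]
    have : 0 ≤ δ ^ 2 * d := by positivity
    nlinarith

/-- **Main theorem.** -/
theorem result :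
    -- the criterion
    (∀ (d m : ℕ) (K : Set (EuclideanSpace ℝ (Fin d)))
      (L : EuclideanSpace ℝ (Fin d) →L[ℝ] EuclideanSpace ℝ (Fin m))
      (c : EuclideanSpace ℝ (Fin m)) (R r s τ δ : ℝ), 1 ≤ d → Body K → τ ≤ 1 → 0 < δ → δ ≤ 1 →
      Spread L c R r s τ δ K → SumsCovered (momentBound d δ τ) K) ∧
    -- the size of the bound
    (∀ δ : ℝ, 0 < δ → δ ≤ 1 →
      (∀ θ : ℝ, 0 ≤ θ → θ < 1 → ∃ q : ℝ, 0 < q ∧ q < 2 ∧ ∃ N : ℕ, ∀ d : ℕ, N ≤ d →
        momentBound d δ (θ ^ d) ≤ q ^ d) ∧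
      (∃ N d₀ : ℕ, ∀ d : ℕ, d₀ ≤ d → momentBound d δ (1 / (d : ℝ) ^ N) < 2 ^ d)) ∧
    -- cubes with cut off vertices
    (∀ δ : ℝ, 0 < δ → δ ≤ 1 / 2 → ∃ q : ℝ, 0 < q ∧ q < 2 ∧ ∃ d₀ : ℕ, ∀ d : ℕ, d₀ ≤ d →
      ∀ K : Set (EuclideanSpace ℝ (Fin d)), Body K →
        (∀ x ∈ K, (∀ i, |x i| ≤ 1) ∧ ‖x‖ ^ 2 ≤ (1 - δ) * d) →
        ENNReal.ofReal (2 ^ d * Real.exp (-(δ ^ 2 / 240 * d))) ≤ volume K →
        SumsCovered (q ^ d) K) := by
  refine ⟨?_, ?_, ?_⟩
  · intro d m K L c R r s τ δ hd hK hτ hδ0 hδ1 h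
    exact criterion hd hK L c hτ hδ0 hδ1 h
  · intro δ hδ0 hδ1
    exact ⟨fun θ hθ0 hθ1 => size_q hδ0 hδ1 hθ0 hθ1, size_two hδ0 hδ1⟩
  · intro δ hδ0 hδ1
    have hθ1 : Real.exp (-(δ ^ 2 / 240)) < 1 := by
      rw [Real.exp_lt_one_iff]
      have : 0 < δ ^ 2 := by positivity
      linarith
    obtain ⟨q, hq0, hq2, N, hN⟩ := size_q (δ := δ / 2) (by linarith) (by linarith)
      (Real.exp_pos (-(δ ^ 2 / 240))).le hθ1
    refine ⟨q, hq0, hq2, N + 1, fun d hd K hK hKs hV => ?_⟩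
    have hτ : Real.exp (-(δ ^ 2 / 240)) ^ d ≤ 1 := pow_le_one₀ (Real.exp_pos _).le hθ1.le
    exact sums_mono (criterion (by omega) hK _ 0 hτ (by linarith) (by linarith)
      (cut_cube (by omega) hδ0 hδ1 hKs hV)) (hN d (by omega))

end Pool.Agent.Results.MP_eba1ef_gt.CircumradiusAndMoments
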