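import Mathlib
import Pool.Agent.Run7.h533.AC.Dual
import Pool.Agent.Run7.h533.AC.Num

set_option autoImplicit false

/-!
# MP_5e7226_co: random pairs of functionals, and bodies in which a ball rolls freely

Let `K` be a convex body in `ℝ^d`, `d ≥ 2`, and `o` any interior point; no symmetry is assumed and
`o` need not be a centre of any kind. Let `P = {u : ⟪u, y - o⟫ ≤ 1 for all y ∈ K}` be the polar body,
which consists of the (normalized) outer normal vectors of `K`. Two functionals `u, v ∈ P` are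
called linked (at the level `δ`) if some point of `K` is almost maximal for both,
`⟪(u + v)/2, y - o⟫ > 1 - δ` for some `y ∈ K`. For `δ = 0` this would mean that the faces of `K` with
the normal vectors `u` and `v` have a common point.

**Theorem.** If at most the share `ε` of the pairs `u, v` of `P` is linked then
`s(K, o) ≤ 250 M² d log(d+1) 2^d max(ε, e^(-δ² d/2))^(1/(2M))`, `M = log₂(2/δ)`.
So `s(K, o) < 2^d` in high dimension if `ε ≤ d^(-N)`, `N = N(δ)`, and `s(K, o) ≤ q^d` with `q < 2` if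
`ε` is exponentially small. More generally a translation of the functionals is allowed, that is
`⟪(u + v)/2 - t, y - o⟫ > 1 - δ` for a fixed vector `t`. In particular a counterexample to the
conjecture has many linked pairs in high dimension, for each `δ`.

**Bodies with a rolling ball.** Let `B(o, κR) ⊆ K ⊆ B(o, R)`, and let `K` be a union of balls of
radius `κR` (a ball of this radius rolls freely in `K`, that is `K = L + κR B` for some convex `L`
which contains `o`). Then linked functionals are close to each other, and the theorem gives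
`s(K, o) ≤ q^d` with `q = q(κ) < 2` for all `d ≥ d₀(κ)`. It is enough that the points of `K` which
are in no such ball matter only for a small share of the functionals: edges and vertices
are allowed, even everywhere, if the functionals which are almost maximal there have a small share.

Similarly for all uniformly smooth bodies (linked functionals differ by an element of `θ P`).

The proof: the faces of `K` are separated from `o` by `N` hyperplanes if `P` is covered by `N`
translates of its interior (`Pool.Agent.H985.Sep`). Let `A` be a finite subset of `P` such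
that no translate of `l P`, `l` close to `1`, contains more than the share `q` of `A`. For random
points `x` of `A` and a random point `s` with a density bounded by `Λ` the density of `(x+s)/2` has
a bound in `L²` (its square integral is an average of volumes of intersections of translates of the
same body), and so, after removing an event of probability `1/C`, it is bounded by `C 2^d q Λ`. By
iteration the dyadic sums `x₁/2 + x₂/4 + ... + x_m/2^m + s/2^m` have a density bounded by
`(C 2^d q)^m`, up to the probability `m/C`. For two such sums `s, s'` the midpoint is in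
`H = t + (1-δ) P` with high probability; then, for a suitable `y`, the sum
`x₁/2 + ... + x_m/2^m + s'/2^m` is mostly in a translate of `2^(1-m) H + (1-2^(-m))² P`, a set of
volume `≤ e^(-δ² d/2) |P|`. This bounds `(C 2^d q)^(2m)` from below, and the greedy covering
gives the theorem.
-/

namespace Pool.Agent.Results.MP_5e7226_co.RandomPairsAndRollingBalls

open MeasureTheory Metric
open scoped InnerProductSpace Pointwise ENNReal
open Pool.Agent.Run7.h533.AC

/-- The polar body of `K` with respect to `o`. -/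
def polarAt {d : ℕ} (K : Set (EuclideanSpace ℝ (Fin d))) (o : EuclideanSpace ℝ (Fin d)) :
    Set (EuclideanSpace ℝ (Fin d)) := {v | ∀ y ∈ K, ⟪v, y - o⟫_ℝ ≤ 1}

/-- `u` and `v` are linked at the level `δ`, up to the translation `t`: some point `y` of `K`
satisfies `⟪(u + v)/2 - t, y - o⟫ > 1 - δ`. -/
def Linked {d : ℕ} (K : Set (EuclideanSpace ℝ (Fin d))) (o t : EuclideanSpace ℝ (Fin d)) (δ : ℝ)
    (u v : EuclideanSpace ℝ (Fin d)) : Prop :=
  ∃ y ∈ K, 1 - δ < ⟪(1 / 2 : ℝ) • (u + v) - t, y - o⟫_ℝ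

/-- The share of the linked pairs among all pairs of elements of the polar body is at most `ε`. -/
def FewLinked {d : ℕ} (K : Set (EuclideanSpace ℝ (Fin d))) (o t : EuclideanSpace ℝ (Fin d))
    (δ ε : ℝ) : Prop :=
  ((volume : Measure (EuclideanSpace ℝ (Fin d))).prod volume)
      {p | p.1 ∈ polarAt K o ∧ p.2 ∈ polarAt K o ∧ Linked K o t δ p.1 p.2}
    ≤ ENNReal.ofReal ε * volume (polarAt K o) ^ 2

/-- The functionals in the polar body which are larger than `1 - κ⁴/128` at some point of `K` which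
is in no ball of radius `κ R` contained in `K`. -/
def roughPart {d : ℕ} (K : Set (EuclideanSpace ℝ (Fin d))) (o : EuclideanSpace ℝ (Fin d))
    (κ R : ℝ) : Set (EuclideanSpace ℝ (Fin d)) :=
  {u | u ∈ polarAt K o ∧ ∃ y ∈ K,
    (∀ a, y ∈ closedBall a (κ * R) → ¬ closedBall a (κ * R) ⊆ K) ∧
      1 - κ ^ 4 / 128 < ⟪u, y - o⟫_ℝ}

/-- `s(K, o) ≤ N`: there are at most `N` hyperplanes `{x | ⟪h.1, x⟫ = h.2}` such that every face of
`K` (the set of the points of `K` at which a functional `⟪u, ·⟫`, `u ≠ 0`, is maximal on `K`) is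
strictly separated from `o` by one of them. -/
def SeparatedBy {d : ℕ} (K : Set (EuclideanSpace ℝ (Fin d))) (o : EuclideanSpace ℝ (Fin d))
    (N : ℝ) : Prop :=
  ∃ H : Finset (EuclideanSpace ℝ (Fin d) × ℝ), (H.card : ℝ) ≤ N ∧ (∀ h ∈ H, h.1 ≠ 0) ∧
    ∀ u x₀ : EuclideanSpace ℝ (Fin d), u ≠ 0 → x₀ ∈ K → (∀ y ∈ K, ⟪u, y⟫_ℝ ≤ ⟪u, x₀⟫_ℝ) →
      ∃ h ∈ H, ⟪h.1, o⟫_ℝ < h.2 ∧ ∀ x ∈ K, ⟪u, x⟫_ℝ = ⟪u, x₀⟫_ℝ → h.2 < ⟪h.1, x⟫_ℝ

/-- `250 M² d log(d+1) 2^d max(ε, e^(-δ² d / 2))^(1 / (2 M))` with `M = log₂ (2/δ)` -/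
noncomputable def pairBound (d : ℕ) (δ ε : ℝ) : ℝ :=
  250 * Real.logb 2 (2 / δ) ^ 2 * d * Real.log (d + 1) * 2 ^ d
    * (max ε (Real.exp (-(δ ^ 2 * d / 2)))) ^ (1 / (2 * Real.logb 2 (2 / δ)))

theorem sep_of_pairs {d : ℕ} (hd : 2 ≤ d) {K : Set (EuclideanSpace ℝ (Fin d))}
    (hKc : IsCompact K) {o : EuclideanSpace ℝ (Fin d)} (ho : o ∈ interior K)
    {t : EuclideanSpace ℝ (Fin d)} {δ ε : ℝ} (hδ0 : 0 < δ) (hδ1 : δ < 1) (hε0 : 0 ≤ ε)
    (hε1 : ε ≤ 1) (h : FewLinked K o t δ ε) : SeparatedBy K o (pairBound d δ ε) := by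
  obtain ⟨T, hT, hTc⟩ := dual_pairs hd hKc ho t hδ0 hδ1 hε0 hε1 h
  obtain ⟨H, hH, hsep⟩ := Pool.Agent.H985.Sep.separate ho T hT
  have hH' : (H.card : ℝ) ≤ T.card := by exact_mod_cast hH
  exact ⟨H, hH'.trans hTc, hsep⟩

theorem logb_pos' {a δ : ℝ} (ha : 2 ≤ a) (hδ0 : 0 < δ) (hδ1 : δ ≤ 1) :
    1 ≤ Real.logb 2 (a / δ) := by
  rw [Real.le_logb_iff_rpow_le (by norm_num) (by positivity), le_div_iff₀ hδ0]
  norm_num
  linarith

/-- **Main theorem.** -/
theorem result :
    (∀ (d : ℕ) (K : Set (EuclideanSpace ℝ (Fin d))) (o : EuclideanSpace ℝ (Fin d)), 2 ≤ d →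
      IsCompact K → o ∈ interior K →
      -- random pairs of functionals
      (∀ (t : EuclideanSpace ℝ (Fin d)) (δ ε : ℝ), 0 < δ → δ < 1 → 0 ≤ ε → ε ≤ 1 →
        FewLinked K o t δ ε → SeparatedBy K o (pairBound d δ ε)) ∧
      -- uniformly smooth bodies
      (∀ δ θ : ℝ, 0 < δ → δ < 1 → 0 ≤ θ → θ ≤ 1 →
        (∀ u ∈ polarAt K o, ∀ v ∈ polarAt K o, Linked K o 0 δ u v → u - v ∈ θ • polarAt K o) →
        SeparatedBy K o (pairBound d δ (θ ^ d))) ∧
      -- bodies in which a ball rolls freely, up to a small share of the functionals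
      (∀ κ R ε : ℝ, 0 < κ → κ ≤ 1 → 0 < R → 0 ≤ ε → ε ≤ 1 / 2 →
        closedBall o (κ * R) ⊆ K → K ⊆ closedBall o R →
        volume (roughPart K o κ R) ≤ ENNReal.ofReal ε * volume (polarAt K o) →
        SeparatedBy K o (pairBound d (κ ^ 4 / 256) (ε + (1 / 2) ^ d)))) ∧
    -- the size of the bound
    (∀ δ : ℝ, 0 < δ → δ ≤ 1 →
      (∀ θ : ℝ, 0 ≤ θ → θ < 1 → ∃ q : ℝ, 0 < q ∧ q < 2 ∧ ∃ N : ℕ, ∀ d : ℕ, N ≤ d →
        pairBound d δ (θ ^ d) ≤ q ^ d) ∧
      (∃ N d₀ : ℕ, ∀ d : ℕ, d₀ ≤ d → pairBound d δ (1 / (d : ℝ) ^ N) < 2 ^ d)) := by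
  refine ⟨?_, ?_⟩
  · intro d K o hd hKc ho
    refine ⟨?_, ?_, ?_⟩
    · intro t δ ε hδ0 hδ1 hε0 hε1 h
      exact sep_of_pairs hd hKc ho hδ0 hδ1 hε0 hε1 h
    · intro δ θ hδ0 hδ1 hθ0 hθ1 h
      exact sep_of_pairs hd hKc ho hδ0 hδ1 (by positivity) (pow_le_one₀ hθ0 hθ1)
        (smooth_pairs ho hθ0 h)
    · intro κ R ε hκ0 hκ1 hR hε0 hε1 hin hout hrough
      have h4 : κ ^ 4 ≤ 1 := pow_le_one₀ hκ0.le hκ1
      have h2 : (1 / 2 : ℝ) ^ d ≤ (1 / 2) ^ 1 :=
        pow_le_pow_of_le_one (by norm_num) (by norm_num) (by omega)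
      refine sep_of_pairs (t := 0) hd hKc ho (by positivity) (by linarith) (by positivity)
        (by rw [pow_one] at h2; linarith) ?_
      exact rolling_pairs hκ0 hκ1 hR hε0 hin hout hrough
  · intro δ hδ0 hδ1
    have hM : 1 ≤ Real.logb 2 (2 / δ) := logb_pos' (by norm_num) hδ0 hδ1
    have hC2 : 0 < 250 * Real.logb 2 (2 / δ) ^ 2 := by positivity
    have hc2 : 0 < 1 / (2 * Real.logb 2 (2 / δ)) := by positivity
    have ha2 : 0 < δ ^ 2 / 2 := by positivity
    have e2 : ∀ d : ℕ, δ ^ 2 * (d : ℝ) / 2 = δ ^ 2 / 2 * d := fun d => by ring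
    refine ⟨?_, ?_⟩
    · intro θ hθ0 hθ1
      obtain ⟨q, hq0, hq2, N, hN⟩ := num_exp hC2 hc2 ha2 hθ0 hθ1
      refine ⟨q, hq0, hq2, N, fun d hd => ?_⟩
      have h := hN d hd
      rw [← e2] at h
      exact h
    · obtain ⟨N, d₀, hN⟩ := num_poly hC2 hc2 ha2
      refine ⟨N, d₀, fun d hd => ?_⟩
      have h := hN d hd
      rw [← e2] at h
      exact h

end Pool.Agent.Results.MP_5e7226_co.RandomPairsAndRollingBalls
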